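import Pool.Agent.VTP.StmtsW

/-!
Row WR3 of squad VTP: the third move in canonical form.
-/

set_option autoImplicit false

namespace Pool.Agent.VTP.H24

open Finset Pool.Agent.ZOL Pool.Agent.VTP

/-- the word with three strands -/
def W3 (u₀ u₁ u₂ u₃ : Word) (la lb lc : Letter) (α β γ : Bool) : Word :=
  u₀ ++ pr α la lb ++ u₁ ++ pr β (bar la) lc ++ u₂ ++ pr γ (bar lb) (bar lc) ++ u₃

theorem pr_reverse (t : Bool) (x y : Letter) : (pr t x y).reverse = pr (!t) x y := by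
  cases t <;> rfl

theorem bar_fst (l : Letter) : (bar l).1 = l.1 := rfl

theorem sub_pr (T : Finset ℕ) (t : Bool) (x y : Letter) : sub T (pr t x y) =
    if x.1 ∈ T then (if y.1 ∈ T then pr t x y else [x]) else (if y.1 ∈ T then [y] else []) := by
  by_cases h1 : x.1 ∈ T <;> by_cases h2 : y.1 ∈ T <;> cases t <;> simp [pr, sub_cons, h1, h2]

section subs

variable (u₀ u₁ u₂ u₃ : Word) (la lb lc : Letter) (α β γ : Bool) (T : Finset ℕ)

theorem sub_a (ha : la.1 ∈ T) (hb : lb.1 ∉ T) (hc : lc.1 ∉ T) :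
    sub T (W3 u₀ u₁ u₂ u₃ la lb lc α β γ) =
      sub T u₀ ++ [la] ++ sub T u₁ ++ [bar la] ++ sub T u₂ ++ sub T u₃ := by
  simp only [W3, sub_append, sub_pr, bar_fst, ha, hb, hc, if_true, if_false, List.append_nil]

theorem sub_b (ha : la.1 ∉ T) (hb : lb.1 ∈ T) (hc : lc.1 ∉ T) :
    sub T (W3 u₀ u₁ u₂ u₃ la lb lc α β γ) =
      sub T u₀ ++ [lb] ++ sub T u₁ ++ sub T u₂ ++ [bar lb] ++ sub T u₃ := by
  simp only [W3, sub_append, sub_pr, bar_fst, ha, hb, hc, if_true, if_false, List.append_nil]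

theorem sub_c (ha : la.1 ∉ T) (hb : lb.1 ∉ T) (hc : lc.1 ∈ T) :
    sub T (W3 u₀ u₁ u₂ u₃ la lb lc α β γ) =
      sub T u₀ ++ sub T u₁ ++ [lc] ++ sub T u₂ ++ [bar lc] ++ sub T u₃ := by
  simp only [W3, sub_append, sub_pr, bar_fst, ha, hb, hc, if_true, if_false, List.append_nil]

theorem sub_0 (ha : la.1 ∉ T) (hb : lb.1 ∉ T) (hc : lc.1 ∉ T) :
    sub T (W3 u₀ u₁ u₂ u₃ la lb lc α β γ) =
      sub T u₀ ++ sub T u₁ ++ sub T u₂ ++ sub T u₃ := by
  simp only [W3, sub_append, sub_pr, bar_fst, ha, hb, hc, if_false, List.append_nil]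

theorem sub_ab (ha : la.1 ∈ T) (hb : lb.1 ∈ T) (hc : lc.1 ∉ T) :
    sub T (W3 u₀ u₁ u₂ u₃ la lb lc α β γ) =
      sub T u₀ ++ pr α la lb ++ sub T u₁ ++ [bar la] ++ sub T u₂ ++ [bar lb] ++ sub T u₃ := by
  simp only [W3, sub_append, sub_pr, bar_fst, ha, hb, hc, if_true, if_false]

theorem sub_ac (ha : la.1 ∈ T) (hb : lb.1 ∉ T) (hc : lc.1 ∈ T) :
    sub T (W3 u₀ u₁ u₂ u₃ la lb lc α β γ) =
      sub T u₀ ++ [la] ++ sub T u₁ ++ pr β (bar la) lc ++ sub T u₂ ++ [bar lc] ++ sub T u₃ := by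
  simp only [W3, sub_append, sub_pr, bar_fst, ha, hb, hc, if_true, if_false]

theorem sub_bc (ha : la.1 ∉ T) (hb : lb.1 ∈ T) (hc : lc.1 ∈ T) :
    sub T (W3 u₀ u₁ u₂ u₃ la lb lc α β γ) =
      sub T u₀ ++ [lb] ++ sub T u₁ ++ [lc] ++ sub T u₂ ++ pr γ (bar lb) (bar lc) ++ sub T u₃ := by
  simp only [W3, sub_append, sub_pr, bar_fst, ha, hb, hc, if_true, if_false]

end subs

/-- the label set of the rest -/
def VV (u₀ u₁ u₂ u₃ : Word) : Finset ℕ := labels (u₀ ++ u₁ ++ u₂ ++ u₃)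

/-- the hypotheses on the labels -/
structure Dt (u₀ u₁ u₂ u₃ : Word) (la lb lc : Letter) : Prop where
  ab : la.1 ≠ lb.1
  ac : la.1 ≠ lc.1
  bc : lb.1 ≠ lc.1
  a : la.1 ∉ VV u₀ u₁ u₂ u₃
  b : lb.1 ∉ VV u₀ u₁ u₂ u₃
  c : lc.1 ∉ VV u₀ u₁ u₂ u₃

theorem not_mem_VV {u₀ u₁ u₂ u₃ : Word} {x : ℕ} : x ∉ VV u₀ u₁ u₂ u₃ ↔
    x ∉ labels u₀ ∧ x ∉ labels u₁ ∧ x ∉ labels u₂ ∧ x ∉ labels u₃ := by
  simp only [VV, labels_append, Finset.mem_union, not_or]
  tauto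

theorem labels_pr (t : Bool) (x y : Letter) : labels (pr t x y) = {x.1, y.1} := by
  cases t
  · simp [pr, labels_cons, Finset.pair_comm]
  · simp [pr, labels_cons]

theorem labels_W3 (u₀ u₁ u₂ u₃ : Word) (la lb lc : Letter) (α β γ : Bool) :
    labels (W3 u₀ u₁ u₂ u₃ la lb lc α β γ) =
      insert la.1 (insert lb.1 (insert lc.1 (VV u₀ u₁ u₂ u₃))) := by
  ext x
  simp only [W3, VV, labels_append, labels_pr, bar_fst, Finset.mem_union, Finset.mem_insert,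
    Finset.mem_singleton]
  tauto

theorem sub_sing_nil {u : Word} {x : ℕ} (h : x ∉ labels u) : sub {x} u = [] :=
  sub_eq_nil (Finset.disjoint_singleton_left.2 h)

theorem not_mem_of_sub_nil {u : Word} {x : ℕ} (h : sub {x} u = []) : x ∉ labels u := by
  intro hx
  obtain ⟨l, hl, rfl⟩ := mem_labels.1 hx
  have : l ∈ sub {l.1} u := mem_sub.2 ⟨hl, Finset.mem_singleton_self _⟩
  rw [h] at this
  exact absurd this (List.not_mem_nil)

theorem gauss_len {w : Word} (h : IsGauss w) {x : ℕ} (hx : x ∈ labels w) :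
    (sub {x} w).length = 2 := by
  obtain ⟨l, hl⟩ := h x hx
  rw [hl]
  rfl

theorem mk_Dt {u₀ u₁ u₂ u₃ : Word} {la lb lc : Letter} {α β γ : Bool} (ab : la.1 ≠ lb.1)
    (ac : la.1 ≠ lc.1) (bc : lb.1 ≠ lc.1) (h : IsGauss (W3 u₀ u₁ u₂ u₃ la lb lc α β γ)) :
    Dt u₀ u₁ u₂ u₃ la lb lc := by
  have hl := labels_W3 u₀ u₁ u₂ u₃ la lb lc α β γ
  refine ⟨ab, ac, bc, ?_, ?_, ?_⟩
  · have h1 := gauss_len h (x := la.1) (by rw [hl]; simp)
    rw [sub_a u₀ u₁ u₂ u₃ la lb lc α β γ {la.1} (by simp) (by simpa using ab.symm)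
      (by simpa using ac.symm)] at h1
    simp only [List.length_append, List.length_cons, List.length_nil] at h1
    rw [not_mem_VV]
    refine ⟨?_, ?_, ?_, ?_⟩ <;> apply not_mem_of_sub_nil <;> rw [← List.length_eq_zero_iff] <;>
      omega
  · have h1 := gauss_len h (x := lb.1) (by rw [hl]; simp)
    rw [sub_b u₀ u₁ u₂ u₃ la lb lc α β γ {lb.1} (by simpa using ab) (by simp)
      (by simpa using bc.symm)] at h1
    simp only [List.length_append, List.length_cons, List.length_nil] at h1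
    rw [not_mem_VV]
    refine ⟨?_, ?_, ?_, ?_⟩ <;> apply not_mem_of_sub_nil <;> rw [← List.length_eq_zero_iff] <;>
      omega
  · have h1 := gauss_len h (x := lc.1) (by rw [hl]; simp)
    rw [sub_c u₀ u₁ u₂ u₃ la lb lc α β γ {lc.1} (by simpa using ac) (by simpa using bc)
      (by simp)] at h1
    simp only [List.length_append, List.length_cons, List.length_nil] at h1
    rw [not_mem_VV]
    refine ⟨?_, ?_, ?_, ?_⟩ <;> apply not_mem_of_sub_nil <;> rw [← List.length_eq_zero_iff] <;>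
      omega

/-! first letters -/

theorem fstL_eq (w : Word) (d : ℕ) : fstL w d = ((sub {d} w).head?).getD (d, true, true) := by
  unfold fstL sub
  rw [List.head?_filter]
  congr 2
  funext l
  simp

theorem fstL_congr {w w' : Word} {d : ℕ} (h : sub {d} w = sub {d} w') : fstL w d = fstL w' d := by
  rw [fstL_eq, fstL_eq, h]

section data

variable {u₀ u₁ u₂ u₃ : Word} {la lb lc : Letter}

theorem fst_a (h : Dt u₀ u₁ u₂ u₃ la lb lc) (α β γ : Bool) :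
    fstL (W3 u₀ u₁ u₂ u₃ la lb lc α β γ) la.1 = la := by
  rw [fstL_eq, sub_a u₀ u₁ u₂ u₃ la lb lc α β γ {la.1} (by simp) (by simpa using h.ab.symm)
      (by simpa using h.ac.symm), sub_sing_nil (not_mem_VV.1 h.a).1]
  rfl

theorem fst_b (h : Dt u₀ u₁ u₂ u₃ la lb lc) (α β γ : Bool) :
    fstL (W3 u₀ u₁ u₂ u₃ la lb lc α β γ) lb.1 = lb := by
  rw [fstL_eq, sub_b u₀ u₁ u₂ u₃ la lb lc α β γ {lb.1} (by simpa using h.ab) (by simp)
      (by simpa using h.bc.symm), sub_sing_nil (not_mem_VV.1 h.b).1]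
  rfl

theorem fst_c (h : Dt u₀ u₁ u₂ u₃ la lb lc) (α β γ : Bool) :
    fstL (W3 u₀ u₁ u₂ u₃ la lb lc α β γ) lc.1 = lc := by
  rw [fstL_eq, sub_c u₀ u₁ u₂ u₃ la lb lc α β γ {lc.1} (by simpa using h.ac)
      (by simpa using h.bc) (by simp), sub_sing_nil (not_mem_VV.1 h.c).1,
      sub_sing_nil (not_mem_VV.1 h.c).2.1]
  rfl

theorem ne_of_mem (h : Dt u₀ u₁ u₂ u₃ la lb lc) {d : ℕ} (hd : d ∈ VV u₀ u₁ u₂ u₃) :
    la.1 ≠ d ∧ lb.1 ≠ d ∧ lc.1 ≠ d :=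
  ⟨fun e => h.a (e ▸ hd), fun e => h.b (e ▸ hd), fun e => h.c (e ▸ hd)⟩

theorem fst_d (h : Dt u₀ u₁ u₂ u₃ la lb lc) (α β γ α' β' γ' : Bool) {d : ℕ}
    (hd : d ∈ VV u₀ u₁ u₂ u₃) :
    fstL (W3 u₀ u₁ u₂ u₃ la lb lc α β γ) d = fstL (W3 u₀ u₁ u₂ u₃ la lb lc α' β' γ') d := by
  obtain ⟨h1, h2, h3⟩ := ne_of_mem h hd
  apply fstL_congr
  rw [sub_0 _ _ _ _ _ _ _ _ _ _ _ (by simpa using h1) (by simpa using h2) (by simpa using h3),
    sub_0 _ _ _ _ _ _ _ _ _ _ _ (by simpa using h1) (by simpa using h2) (by simpa using h3)]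

theorem fst_all (h : Dt u₀ u₁ u₂ u₃ la lb lc) (α β γ α' β' γ' : Bool) {d : ℕ}
    (hd : d ∈ labels (W3 u₀ u₁ u₂ u₃ la lb lc α β γ)) :
    fstL (W3 u₀ u₁ u₂ u₃ la lb lc α β γ) d = fstL (W3 u₀ u₁ u₂ u₃ la lb lc α' β' γ') d := by
  rw [labels_W3, Finset.mem_insert, Finset.mem_insert, Finset.mem_insert] at hd
  rcases hd with rfl | rfl | rfl | hd
  · rw [fst_a h, fst_a h]
  · rw [fst_b h, fst_b h]
  · rw [fst_c h, fst_c h]
  · exact fst_d h _ _ _ _ _ _ hd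

/-! interlacement -/

theorem map_rep (u : Word) (d : ℕ) :
    (sub {d} u).map Prod.fst = List.replicate (sub {d} u).length d := by
  rw [List.eq_replicate_iff]
  refine ⟨by simp, fun b hb => ?_⟩
  obtain ⟨l, hl, rfl⟩ := List.mem_map.1 hb
  simpa using (mem_sub.1 hl).2

theorem sub_pair {u : Word} {a d : ℕ} (h : a ∉ labels u) : sub {a, d} u = sub {d} u := by
  apply sub_congr
  ext x
  simp only [Finset.mem_inter, Finset.mem_insert, Finset.mem_singleton]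
  constructor
  · rintro ⟨rfl | h1, h2⟩
    · exact absurd h2 h
    · exact ⟨h1, h2⟩
  · rintro ⟨h1, h2⟩
    exact ⟨Or.inr h1, h2⟩

theorem sub_pair_nil {u : Word} {a d : ℕ} (h : a ∉ labels u) (h' : d ∉ labels u) :
    sub {a, d} u = [] := by
  rw [sub_pair h, sub_sing_nil h']

theorem pat (a d : ℕ) (h : a ≠ d) (n m k : ℕ) (hs : n + m + k = 2) :
    (List.replicate n d ++ [a] ++ List.replicate m d ++ [a] ++ List.replicate k d = [a, d, a, d] ∨
      List.replicate n d ++ [a] ++ List.replicate m d ++ [a] ++ List.replicate k d =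
        [d, a, d, a]) ↔ m = 1 := by
  have hn : n ≤ 2 := by omega
  have hm : m ≤ 2 := by omega
  have hk : k = 2 - n - m := by omega
  subst hk
  interval_cases n <;> interval_cases m <;>
    first
    | (exfalso; omega)
    | simp [h, h.symm]

variable (h : Dt u₀ u₁ u₂ u₃ la lb lc)

include h

theorem cnt {α β γ : Bool} (hG : IsGauss (W3 u₀ u₁ u₂ u₃ la lb lc α β γ)) {d : ℕ}
    (hd : d ∈ VV u₀ u₁ u₂ u₃) :
    (sub {d} u₀).length + (sub {d} u₁).length + (sub {d} u₂).length + (sub {d} u₃).length = 2 := by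
  obtain ⟨h1, h2, h3⟩ := ne_of_mem h hd
  have h4 := gauss_len hG (x := d) (by rw [labels_W3]; simp [hd])
  rw [sub_0 _ _ _ _ _ _ _ _ _ _ _ (by simpa using h1) (by simpa using h2)
    (by simpa using h3)] at h4
  simp only [List.length_append] at h4
  exact h4

theorem il_a {α β γ : Bool} (hG : IsGauss (W3 u₀ u₁ u₂ u₃ la lb lc α β γ)) {d : ℕ}
    (hd : d ∈ VV u₀ u₁ u₂ u₃) :
    il (W3 u₀ u₁ u₂ u₃ la lb lc α β γ) la.1 d ↔ (sub {d} u₁).length = 1 := by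
  obtain ⟨h1, h2, h3⟩ := ne_of_mem h hd
  have hc := cnt h hG hd
  obtain ⟨a0, a1, a2, a3⟩ := not_mem_VV.1 h.a
  unfold il
  rw [sub_a _ _ _ _ _ _ _ _ _ _ _ (by simp) (by simp [h.ab.symm, h2])
    (by simp [h.ac.symm, h3]), sub_pair a0, sub_pair a1, sub_pair a2, sub_pair a3]
  simp only [List.map_append, map_rep, List.map_cons, List.map_nil, bar_fst]
  rw [List.append_assoc _ (List.replicate _ d) (List.replicate _ d),
    List.replicate_append_replicate]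
  exact pat la.1 d h1 _ _ _ (by omega)

theorem il_b {α β γ : Bool} (hG : IsGauss (W3 u₀ u₁ u₂ u₃ la lb lc α β γ)) {d : ℕ}
    (hd : d ∈ VV u₀ u₁ u₂ u₃) :
    il (W3 u₀ u₁ u₂ u₃ la lb lc α β γ) lb.1 d ↔
      (sub {d} u₁).length + (sub {d} u₂).length = 1 := by
  obtain ⟨h1, h2, h3⟩ := ne_of_mem h hd
  have hc := cnt h hG hd
  obtain ⟨a0, a1, a2, a3⟩ := not_mem_VV.1 h.b
  unfold il
  rw [sub_b _ _ _ _ _ _ _ _ _ _ _ (by simp [h.ab, h1]) (by simp)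
    (by simp [h.bc.symm, h3]), sub_pair a0, sub_pair a1, sub_pair a2, sub_pair a3]
  simp only [List.map_append, map_rep, List.map_cons, List.map_nil, bar_fst]
  rw [List.append_assoc _ (List.replicate _ d) (List.replicate _ d),
    List.replicate_append_replicate]
  exact pat lb.1 d h2 _ _ _ (by omega)

theorem il_c {α β γ : Bool} (hG : IsGauss (W3 u₀ u₁ u₂ u₃ la lb lc α β γ)) {d : ℕ}
    (hd : d ∈ VV u₀ u₁ u₂ u₃) :
    il (W3 u₀ u₁ u₂ u₃ la lb lc α β γ) lc.1 d ↔ (sub {d} u₂).length = 1 := by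
  obtain ⟨h1, h2, h3⟩ := ne_of_mem h hd
  have hc := cnt h hG hd
  obtain ⟨a0, a1, a2, a3⟩ := not_mem_VV.1 h.c
  unfold il
  rw [sub_c _ _ _ _ _ _ _ _ _ _ _ (by simp [h.ac, h1]) (by simp [h.bc, h2])
    (by simp), sub_pair a0, sub_pair a1, sub_pair a2, sub_pair a3]
  simp only [List.map_append, map_rep, List.map_cons, List.map_nil, bar_fst]
  rw [List.replicate_append_replicate]
  exact pat lc.1 d h3 _ _ _ (by omega)

theorem il_dd (α β γ α' β' γ' : Bool) {x y : ℕ}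
    (hx : x ∈ VV u₀ u₁ u₂ u₃) (hy : y ∈ VV u₀ u₁ u₂ u₃) :
    il (W3 u₀ u₁ u₂ u₃ la lb lc α β γ) x y ↔ il (W3 u₀ u₁ u₂ u₃ la lb lc α' β' γ') x y := by
  obtain ⟨h1, h2, h3⟩ := ne_of_mem h hx
  obtain ⟨k1, k2, k3⟩ := ne_of_mem h hy
  unfold il
  rw [sub_0 _ _ _ _ _ _ _ _ _ _ _ (by simp [h1, k1]) (by simp [h2, k2]) (by simp [h3, k3]),
    sub_0 _ _ _ _ _ _ _ _ _ _ _ (by simp [h1, k1]) (by simp [h2, k2]) (by simp [h3, k3])]

theorem il_ab (α β γ : Bool) :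
    il (W3 u₀ u₁ u₂ u₃ la lb lc α β γ) la.1 lb.1 ↔ α = true := by
  obtain ⟨a0, a1, a2, a3⟩ := not_mem_VV.1 h.a
  obtain ⟨b0, b1, b2, b3⟩ := not_mem_VV.1 h.b
  unfold il
  rw [sub_ab _ _ _ _ _ _ _ _ _ _ _ (by simp) (by simp) (by simp [h.ac.symm, h.bc.symm]),
    sub_pair_nil a0 b0, sub_pair_nil a1 b1, sub_pair_nil a2 b2, sub_pair_nil a3 b3]
  cases α <;> simp [pr, bar_fst, h.ab, h.ab.symm]

theorem il_ac (α β γ : Bool) :
    il (W3 u₀ u₁ u₂ u₃ la lb lc α β γ) la.1 lc.1 ↔ β = false := by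
  obtain ⟨a0, a1, a2, a3⟩ := not_mem_VV.1 h.a
  obtain ⟨b0, b1, b2, b3⟩ := not_mem_VV.1 h.c
  unfold il
  rw [sub_ac _ _ _ _ _ _ _ _ _ _ _ (by simp) (by simp [h.ab.symm, h.bc]) (by simp),
    sub_pair_nil a0 b0, sub_pair_nil a1 b1, sub_pair_nil a2 b2, sub_pair_nil a3 b3]
  cases β <;> simp [pr, bar_fst, h.ac, h.ac.symm]

theorem il_bc (α β γ : Bool) :
    il (W3 u₀ u₁ u₂ u₃ la lb lc α β γ) lb.1 lc.1 ↔ γ = true := by
  obtain ⟨a0, a1, a2, a3⟩ := not_mem_VV.1 h.b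
  obtain ⟨b0, b1, b2, b3⟩ := not_mem_VV.1 h.c
  unfold il
  rw [sub_bc _ _ _ _ _ _ _ _ _ _ _ (by simp [h.ab, h.ac]) (by simp) (by simp),
    sub_pair_nil a0 b0, sub_pair_nil a1 b1, sub_pair_nil a2 b2, sub_pair_nil a3 b3]
  cases γ <;> simp [pr, bar_fst, h.bc, h.bc.symm]

theorem aacc (α γ : Bool) :
    (sub {la.1, lc.1} (W3 u₀ u₁ u₂ u₃ la lb lc α true γ)).map Prod.fst =
      [la.1, la.1, lc.1, lc.1] := by
  obtain ⟨a0, a1, a2, a3⟩ := not_mem_VV.1 h.a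
  obtain ⟨b0, b1, b2, b3⟩ := not_mem_VV.1 h.c
  rw [sub_ac _ _ _ _ _ _ _ _ _ _ _ (by simp) (by simp [h.ab.symm, h.bc]) (by simp),
    sub_pair_nil a0 b0, sub_pair_nil a1 b1, sub_pair_nil a2 b2, sub_pair_nil a3 b3]
  simp [pr, bar_fst]

theorem par {α β γ : Bool} (hG : IsGauss (W3 u₀ u₁ u₂ u₃ la lb lc α β γ)) {d : ℕ}
    (hd : d ∈ VV u₀ u₁ u₂ u₃) :
    (il (W3 u₀ u₁ u₂ u₃ la lb lc α β γ) lb.1 d ↔
      ¬ (il (W3 u₀ u₁ u₂ u₃ la lb lc α β γ) la.1 d ↔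
        il (W3 u₀ u₁ u₂ u₃ la lb lc α β γ) lc.1 d)) := by
  rw [il_a h hG hd, il_b h hG hd, il_c h hG hd]
  have hc := cnt h hG hd
  omega

/-- the sum over the crossings of two components -/
theorem hJ (hPLJ : PljStmt) (hWBA : WbaStmt) {α γ : Bool}
    (hG : IsGauss (W3 u₀ u₁ u₂ u₃ la lb lc α true γ))
    (hP : Planar (shadow (W3 u₀ u₁ u₂ u₃ la lb lc α true γ))) (S : Finset ℕ)
    (hS : S ⊆ VV u₀ u₁ u₂ u₃) (hN : NI (il (W3 u₀ u₁ u₂ u₃ la lb lc α true γ)) S)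
    (hac : ∀ x ∈ S, ¬ il (W3 u₀ u₁ u₂ u₃ la lb lc α true γ) la.1 x ∧
      ¬ il (W3 u₀ u₁ u₂ u₃ la lb lc α true γ) lc.1 x) (D : Finset ℕ)
    (hD : ∀ d, d ∈ D ↔ d ∈ VV u₀ u₁ u₂ u₃ ∧ d ∉ S ∧
      (∀ x ∈ S, ¬ il (W3 u₀ u₁ u₂ u₃ la lb lc α true γ) x d) ∧
      il (W3 u₀ u₁ u₂ u₃ la lb lc α true γ) la.1 d ∧
      il (W3 u₀ u₁ u₂ u₃ la lb lc α true γ) lc.1 d) :
    ∑ d ∈ D, sg (W3 u₀ u₁ u₂ u₃ la lb lc α true γ) d =
      if α = true ∧ γ = true then - sg (W3 u₀ u₁ u₂ u₃ la lb lc α true γ) lb.1 else 0 := by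
  have hsym := hWBA.1 (W3 u₀ u₁ u₂ u₃ la lb lc α true γ)
  have hirr := hWBA.2.1 _ hG
  have hlab := labels_W3 u₀ u₁ u₂ u₃ la lb lc α true γ
  have hVl : VV u₀ u₁ u₂ u₃ ⊆ labels (W3 u₀ u₁ u₂ u₃ la lb lc α true γ) := by
    rw [hlab]
    intro x hx
    simp [hx]
  have key := hPLJ (W3 u₀ u₁ u₂ u₃ la lb lc α true γ) la.1 lc.1 hG hP (aacc h α γ) S
    (hS.trans hVl) (fun e => h.a (hS e)) (fun e => h.c (hS e)) hN hac
  have hab := il_ab h α true γ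
  have hbc := il_bc h α true γ
  have hSb : ∀ x ∈ S, ¬ il (W3 u₀ u₁ u₂ u₃ la lb lc α true γ) x lb.1 := by
    intro x hx e
    have e1 := (par h hG (hS hx)).1 (hsym _ _ e)
    have e2 := hac x hx
    exact e1 (iff_of_false e2.1 e2.2)
  by_cases hag : α = true ∧ γ = true
  · rw [if_pos hag]
    have hbD : lb.1 ∉ D := fun e => h.b ((hD _).1 e).1
    have k1 := key (insert lb.1 D) (fun d => by
      rw [Finset.mem_insert, hlab]
      constructor
      · rintro (rfl | hd)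
        · exact ⟨by simp, fun e => h.b (hS e), hSb, hab.2 hag.1, hsym _ _ (hbc.2 hag.2)⟩
        · obtain ⟨e1, e2⟩ := (hD d).1 hd
          exact ⟨by simp [e1], e2⟩
      · rintro ⟨e1, e2, e3, e4, e5⟩
        rw [Finset.mem_insert, Finset.mem_insert, Finset.mem_insert] at e1
        rcases e1 with rfl | rfl | rfl | e1
        · exact absurd e4 (hirr _)
        · exact Or.inl rfl
        · exact absurd e5 (hirr _)
        · exact Or.inr ((hD d).2 ⟨e1, e2, e3, e4, e5⟩))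
    rw [Finset.sum_insert hbD] at k1
    linarith
  · rw [if_neg hag]
    refine key D (fun d => ?_)
    rw [hlab]
    constructor
    · intro hd
      obtain ⟨e1, e2⟩ := (hD d).1 hd
      exact ⟨by simp [e1], e2⟩
    · rintro ⟨e1, e2, e3, e4, e5⟩
      rw [Finset.mem_insert, Finset.mem_insert, Finset.mem_insert] at e1
      rcases e1 with rfl | rfl | rfl | e1
      · exact absurd e4 (hirr _)
      · exact absurd ⟨hab.1 e4, hbc.1 (hsym _ _ e5)⟩ hag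
      · exact absurd e5 (hirr _)
      · exact (hD d).2 ⟨e1, e2, e3, e4, e5⟩

end data

theorem wr3 (hPCG : PcgStmt) (hPR3 : Pr3Stmt) (hPLJ : PljStmt) (hQEX : QexStmt)
    (hWBA : WbaStmt) : Wr3Stmt := by
  intro u₀ u₁ u₂ u₃ s₁ s₂ s₃ la lb lc α β γ hcan
  obtain ⟨rfl, rfl, rfl, ab, ac, bc, ea, ec, o1, o2⟩ := hcan
  rw [pr_reverse, pr_reverse, pr_reverse]
  intro hG hP hG' hP'
  have hG : IsGauss (W3 u₀ u₁ u₂ u₃ la lb lc α β γ) := hG
  have hP : Planar (shadow (W3 u₀ u₁ u₂ u₃ la lb lc α β γ)) := hP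
  have hG' : IsGauss (W3 u₀ u₁ u₂ u₃ la lb lc (!α) (!β) (!γ)) := hG'
  have hP' : Planar (shadow (W3 u₀ u₁ u₂ u₃ la lb lc (!α) (!β) (!γ))) := hP'
  show PW (W3 u₀ u₁ u₂ u₃ la lb lc α β γ) = PW (W3 u₀ u₁ u₂ u₃ la lb lc (!α) (!β) (!γ))
  have h := mk_Dt ab ac bc hG
  have hlab := labels_W3 u₀ u₁ u₂ u₃ la lb lc α β γ
  have hlab' := labels_W3 u₀ u₁ u₂ u₃ la lb lc (!α) (!β) (!γ)
  set w := W3 u₀ u₁ u₂ u₃ la lb lc α β γ with hw
  set w' := W3 u₀ u₁ u₂ u₃ la lb lc (!α) (!β) (!γ) with hw'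
  have hsym := hWBA.1 w
  have hirr := hWBA.2.1 w hG
  have hsym' := hWBA.1 w'
  have hirr' := hWBA.2.1 w' hG'
  have hfst : ∀ d ∈ labels w, fstL w d = fstL w' d := fun d hd => fst_all h _ _ _ _ _ _ hd
  have hsg : ∀ d ∈ labels w, sg w d = sg w' d := by
    intro d hd
    unfold sg
    rw [hfst d hd]
  have hsn : ∀ d ∈ labels w, sn w d = sn w' d := by
    intro d hd
    unfold sn
    rw [hfst d hd]
  have fa : fstL w la.1 = la := fst_a h α β γ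
  have fb : fstL w lb.1 = lb := fst_b h α β γ
  have fc : fstL w lc.1 = lc := fst_c h α β γ
  have ma : la.1 ∈ labels w := by rw [hlab]; simp
  have mb : lb.1 ∈ labels w := by rw [hlab]; simp
  have mc : lc.1 ∈ labels w := by rw [hlab]; simp
  have mV : ∀ d ∈ VV u₀ u₁ u₂ u₃, d ∈ labels w := by
    intro d hd
    rw [hlab]
    simp [hd]
  obtain ⟨-, -, ga, na, ia⟩ := hWBA.2.2 w hG la.1 ma
  obtain ⟨-, -, gb, nb, ib⟩ := hWBA.2.2 w hG lb.1 mb
  obtain ⟨-, -, gc, nc, ic⟩ := hWBA.2.2 w hG lc.1 mc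
  rw [fa] at ia
  rw [fb] at ib
  rw [fc] at ic
  have sa : sg w la.1 = eps (la.1, la.2.1) := by unfold sg; rw [fa]
  have sb : sg w lb.1 = eps (lb.1, lb.2.1) := by unfold sg; rw [fb]
  have sc : sg w lc.1 = eps (lc.1, lc.2.1) := by unfold sg; rw [fc]
  have hdd : ∀ x ∈ VV u₀ u₁ u₂ u₃, ∀ y ∈ VV u₀ u₁ u₂ u₃, (il w x y ↔ il w' x y) :=
    fun x hx y hy => il_dd h _ _ _ _ _ _ hx hy
  have had : ∀ y ∈ VV u₀ u₁ u₂ u₃, (il w la.1 y ↔ il w' la.1 y) := fun y hy => by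
    rw [hw, hw', il_a h hG hy, il_a h hG' hy]
  have hbd : ∀ y ∈ VV u₀ u₁ u₂ u₃, (il w lb.1 y ↔ il w' lb.1 y) := fun y hy => by
    rw [hw, hw', il_b h hG hy, il_b h hG' hy]
  have hcd : ∀ y ∈ VV u₀ u₁ u₂ u₃, (il w lc.1 y ↔ il w' lc.1 y) := fun y hy => by
    rw [hw, hw', il_c h hG hy, il_c h hG' hy]
  have hcomp : PP qq (labels w') (sg w') (sn w') (il w') =
      PP qq (insert la.1 (insert lb.1 (insert lc.1 (VV u₀ u₁ u₂ u₃)))) (sg w) (sn w) (il w') := by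
    rw [hlab', ← hlab]
    exact (hPCG (labels w) (sg w') (sg w) (sn w') (sn w) (il w') (il w')
      (fun d hd => (hsg d hd).symm) (fun d hd => (hsn d hd).symm)
      (fun _ _ _ _ => Iff.rfl)).1 _ qq
  unfold PW
  rw [hcomp, hlab]
  refine hPR3 (PowerSeries ℤ) qq hQEX.1 (VV u₀ u₁ u₂ u₃) (sg w) (sn w) (il w) (il w') la.1 lb.1
    lc.1 α β γ h.a h.b h.c ab ac bc (fun x y => hsym x y) (fun x y => hsym' x y) hirr hirr' hdd
    ?_ (fun d hd => par h hG hd) (il_ab h α β γ) (il_ac h α β γ) (il_bc h α β γ) ?_ ?_ ?_ gb ?_ ?_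
    ?_ ?_ ?_ ?_
  · intro x hx y hy
    rw [Finset.mem_insert, Finset.mem_insert, Finset.mem_singleton] at hx
    rcases hx with rfl | rfl | rfl
    · exact had y hy
    · exact hbd y hy
    · exact hcd y hy
  · rw [hw', il_ab h]
    cases α <;> simp
  · rw [hw', il_ac h]
    cases β <;> simp
  · rw [hw', il_bc h]
    cases γ <;> simp
  · rw [sa, sb]
    exact ea
  · rw [sc, sb]
    exact ec
  · intro x hx
    rw [Finset.mem_insert, Finset.mem_insert, Finset.mem_singleton] at hx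
    rcases hx with rfl | rfl | rfl
    · exact na
    · exact nb
    · exact nc
  · rintro ⟨e1, e2, e3⟩
    apply o1
    refine ⟨?_, ?_, ib.1 e3⟩
    · by_contra e
      exact e1 (ia.2 (by simpa using e))
    · by_contra e
      exact e2 (ic.2 (by simpa using e))
  · rintro ⟨e1, e2, e3⟩
    apply o2
    refine ⟨?_, ia.1 e2, ic.1 e3⟩
    by_contra e
    exact e1 (ib.2 (by simpa using e))
  · intro S hS hN hac D hD
    cases β with
    | true =>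
      have k := hJ h hPLJ hWBA hG hP S hS hN hac D hD
      refine Eq.trans k ?_
      cases α <;> cases γ <;> simp [hw]
    | false =>
      have hNS : NI (il w') S := fun x hx y hy e =>
        hN x hx y hy ((hdd x (hS hx) y (hS hy)).2 e)
      have k := hJ h hPLJ hWBA (α := !α) (γ := !γ) hG' hP' S hS hNS
        (fun x hx => ⟨fun e => (hac x hx).1 ((had x (hS hx)).2 e),
          fun e => (hac x hx).2 ((hcd x (hS hx)).2 e)⟩) D (fun d => by
            rw [hD d]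
            constructor
            · rintro ⟨e1, e2, e3, e4, e5⟩
              exact ⟨e1, e2, fun x hx e => e3 x hx ((hdd x (hS hx) d e1).2 e),
                (had d e1).1 e4, (hcd d e1).1 e5⟩
            · rintro ⟨e1, e2, e3, e4, e5⟩
              exact ⟨e1, e2, fun x hx e => e3 x hx ((hdd x (hS hx) d e1).1 e),
                (had d e1).2 e4, (hcd d e1).2 e5⟩)
      have k2 : ∑ d ∈ D, sg w d = ∑ d ∈ D, sg w' d :=
        Finset.sum_congr rfl fun d hd => hsg d (mV d ((hD d).1 hd).1)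
      rw [k2, hsg lb.1 mb]
      refine Eq.trans k ?_
      cases α <;> cases γ <;> simp [hw']

end Pool.Agent.VTP.H24
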